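import Pool.Agent.Helper49.TP.StW
import Pool.Agent.Helper93.FZ.St

/-!
# Project FRD (MP_953b28_co): fractional triangle decompositions of tripartite graphs, exact threshold

helper19's theorem (minimise the sum of the fourth powers of the vertex defects), with general consistent
demands and with a cap.
-/

set_option autoImplicit false

namespace Pool.Agent.Helper93.FRD

open Finset Pool.Agent.Helper93.IA Pool.Agent.Helper49.TP
open Pool.Agent.Helper92.Proto (IsProtoplex IsLatin Completable)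

/-- `w` is `0` off `A` and between `1 - η` and `1` on `A`. -/
def Dem {n : ℕ} (η : ℝ) (A : Finset (Fin n × Fin n)) (w : Fin n → Fin n → ℝ) : Prop :=
  (∀ a b, (a, b) ∈ A → 1 - η ≤ w a b ∧ w a b ≤ 1) ∧ ∀ a b, (a, b) ∉ A → w a b = 0

/-- FRD. Demands `w` on the edges, consistent at every vertex (the sum to one class is the sum to the other, and
at most `D`); every edge is in at least `t` triangles; cap `M` on the weights, `1 < (j + 1) M`. If
`D ≤ (3/2)(1 - η)(t - j)` then there are weights `0 ≤ y ≤ M` on the triangles with loads exactly `w`.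
PROOF (helper19). `y` minimises `∑ π_v^4` over all `0 ≤ y ≤ M` with loads `≤ w`; `θ = w - load ≥ 0`; both
`θ`-sums at `v` are `π_v`. `U T = ∑_{v ∈ T} π_v^3`, `y' T = (1 - η) (3/4) ∑_{e = xv ⊆ T} θ e (π_x^2 + π_v^2) / U T` if
`y T < M`, else `0`. On an edge `xz` with `θ = 0` the load of `y'` is at most `1 - η ≤ w` by the capacity lemma
(`Pool.Agent.H23FR.capacity`). So `(1 - e) y + e y'` is feasible for small `e > 0`, hence
`∑ y' T U T ≤ ∑ y T U T = ∑ π_v^3 (W_v - π_v) ≤ D ∑ π^3 - ∑ π^4`. The left side is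
`(1 - η)(3/4) ∑_e θ e (π_x^2 + π_v^2) #{T ∋ e : y T < M} ≥ (1 - η)(3/4)(t - j) * 2 ∑ π^3`. So `∑ π^4 ≤ 0`. -/
def FRD : Prop :=
  ∀ (n : ℕ) (A B C : Finset (Fin n × Fin n)) (wA wB wC : Fin n → Fin n → ℝ) (M η D t : ℝ) (j : ℕ),
    0 ≤ η → η ≤ 1 → 0 < M → 1 < (j + 1) * M → Dem η A wA → Dem η B wB → Dem η C wC →
    (∀ a, ∑ b, wA a b = ∑ c, wC c a) → (∀ b, ∑ a, wA a b = ∑ c, wB b c) →
    (∀ c, ∑ b, wB b c = ∑ a, wC c a) → (∀ a, ∑ b, wA a b ≤ D) → (∀ b, ∑ c, wB b c ≤ D) →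
    (∀ c, ∑ a, wC c a ≤ D) →
    (∀ a b, (a, b) ∈ A → t ≤ ((univ.filter fun c => (b, c) ∈ B ∧ (c, a) ∈ C).card : ℝ)) →
    (∀ b c, (b, c) ∈ B → t ≤ ((univ.filter fun a => (c, a) ∈ C ∧ (a, b) ∈ A).card : ℝ)) →
    (∀ c a, (c, a) ∈ C → t ≤ ((univ.filter fun b => (a, b) ∈ A ∧ (b, c) ∈ B).card : ℝ)) →
    D ≤ 3 / 2 * (1 - η) * (t - j) →
    ∃ y : Fin n → Fin n → Fin n → ℝ, (∀ a b c, 0 ≤ y a b c ∧ y a b c ≤ M) ∧
      (∀ a b c, ¬ Tri A B C a b c → y a b c = 0) ∧ (∀ a b, ∑ c, y a b c = wA a b) ∧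
      (∀ b c, ∑ a, y a b c = wB b c) ∧ ∀ c a, ∑ b, y a b c = wC c a

/-- Every vertex misses exactly `k` vertices of each other class. -/
def Reg {n : ℕ} (k : ℕ) (A B C : Finset (Fin n × Fin n)) : Prop :=
  ∀ i, m1 A univ i = k ∧ m2 A univ i = k ∧ m1 B univ i = k ∧ m2 B univ i = k ∧
    m1 C univ i = k ∧ m2 C univ i = k

/-- FRX (from FRD, for regular graphs: a lower bound `η / n` on every triangle and a cap). -/
def FRX : Prop :=
  ∀ (n k : ℕ) (A B C : Finset (Fin n × Fin n)) (M η : ℝ) (j : ℕ), 0 < n → Reg k A B C → 0 ≤ η →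
    η ≤ 1 → 0 < M → 1 < (j + 1) * M → ((n : ℝ) - k) ≤ 3 / 2 * (1 - η) * (n - 2 * k - j) →
    ∃ x : Fin n → Fin n → Fin n → ℝ, (∀ a b c, 0 ≤ x a b c ∧ x a b c ≤ M + η / n) ∧
      (∀ a b c, Tri A B C a b c → η / n ≤ x a b c) ∧ (∀ a b c, ¬ Tri A B C a b c → x a b c = 0) ∧
      (∀ a b, (a, b) ∈ A → ∑ c, x a b c = 1) ∧ (∀ b c, (b, c) ∈ B → ∑ a, x a b c = 1) ∧
      ∀ c a, (c, a) ∈ C → ∑ b, x a b c = 1

end Pool.Agent.Helper93.FRD
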