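import Pool.Agent.Helper93.FRD.Frac

/-! Project FRD: completions give fractional completions, completions of inflations too; the small cases. -/

set_option autoImplicit false

namespace Pool.Agent.Helper93.FRD

open Finset Pool.Agent.Helper93.FZ Pool.Agent.Helper93.IA
open Pool.Agent.Helper92.Proto (IsProtoplex IsLatin Completable)

/-- If some inflation of `P` (order `d ≥ 1`) is completable then `P` has a fractional completion. -/
theorem frac_of_inflate {n d : ℕ} (hd : 1 ≤ d) (P : Fin n → Fin n → Option (Fin n))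
    (L : Fin d → Fin d → Fin d) (h : Completable (inflate P L)) :
    ∃ x : Fin n → Fin n → Fin n → ℝ, IsFracCompletion P x := by
  classical
  obtain ⟨M, ⟨hM1, hM2⟩, hM3⟩ := h
  have hdr : (0 : ℝ) < (d : ℝ) ^ 2 := by
    have : (0 : ℝ) < d := by exact_mod_cast hd
    positivity
  -- the block of the entry
  set B : Fin n → Fin d → Fin n → Fin d → Fin n := fun r i c j =>
    (finProdFinEquiv.symm (M (finProdFinEquiv (r, i)) (finProdFinEquiv (c, j)))).1 with hB
  have hrow : ∀ r s i, ∑ c, ∑ j, (if B r i c j = s then (1 : ℝ) else 0) = d := by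
    intro r s i
    have e1 : ∑ c, ∑ j, (if B r i c j = s then (1 : ℝ) else 0) =
        ∑ y : Fin (n * d), if (finProdFinEquiv.symm (M (finProdFinEquiv (r, i)) y)).1 = s
          then (1 : ℝ) else 0 := by
      rw [← Equiv.sum_comp finProdFinEquiv, Fintype.sum_prod_type]
    rw [e1, (hM1 (finProdFinEquiv (r, i))).sum_comp
      (fun z => if (finProdFinEquiv.symm z).1 = s then (1 : ℝ) else 0),
      ← Equiv.sum_comp finProdFinEquiv, Fintype.sum_prod_type]
    simp
  have hcol : ∀ c s j, ∑ r, ∑ i, (if B r i c j = s then (1 : ℝ) else 0) = d := by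
    intro c s j
    have e1 : ∑ r, ∑ i, (if B r i c j = s then (1 : ℝ) else 0) =
        ∑ y : Fin (n * d), if (finProdFinEquiv.symm (M y (finProdFinEquiv (c, j)))).1 = s
          then (1 : ℝ) else 0 := by
      rw [← Equiv.sum_comp finProdFinEquiv, Fintype.sum_prod_type]
    rw [e1, (hM2 (finProdFinEquiv (c, j))).sum_comp
      (fun z => if (finProdFinEquiv.symm z).1 = s then (1 : ℝ) else 0),
      ← Equiv.sum_comp finProdFinEquiv, Fintype.sum_prod_type]
    simp
  refine ⟨fun r c s => (∑ i, ∑ j, if B r i c j = s then (1 : ℝ) else 0) / (d : ℝ) ^ 2,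
    ?_, ?_, ?_, ?_, ?_⟩
  · intro r c s
    refine div_nonneg (Finset.sum_nonneg fun i _ => Finset.sum_nonneg fun j _ => ?_) hdr.le
    split_ifs <;> norm_num
  · intro r c
    rw [← Finset.sum_div, div_eq_one_iff_eq hdr.ne', Finset.sum_comm]
    have : ∀ i : Fin d, ∑ s, ∑ j, (if B r i c j = s then (1 : ℝ) else 0) = d := by
      intro i
      rw [Finset.sum_comm]
      simp
    simp only [this, Finset.sum_const, card_univ, Fintype.card_fin, nsmul_eq_mul]
    ring
  · intro r s
    rw [← Finset.sum_div, div_eq_one_iff_eq hdr.ne', Finset.sum_comm]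
    simp only [hrow, Finset.sum_const, card_univ, Fintype.card_fin, nsmul_eq_mul]
    ring
  · intro c s
    rw [← Finset.sum_div, div_eq_one_iff_eq hdr.ne']
    have e1 : ∀ r, ∑ i, ∑ j, (if B r i c j = s then (1 : ℝ) else 0) =
        ∑ j, ∑ i, (if B r i c j = s then (1 : ℝ) else 0) := fun r => Finset.sum_comm
    simp only [e1]
    rw [Finset.sum_comm]
    simp only [hcol, Finset.sum_const, card_univ, Fintype.card_fin, nsmul_eq_mul]
    ring
  · intro r c s hs
    rw [div_eq_one_iff_eq hdr.ne']
    have e1 : ∀ i j, B r i c j = s := by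
      intro i j
      have h1 := hM3 (finProdFinEquiv (r, i)) (finProdFinEquiv (c, j)) (finProdFinEquiv (s, L i j))
        (by unfold inflate; simp [hs])
      show (finProdFinEquiv.symm (M (finProdFinEquiv (r, i)) (finProdFinEquiv (c, j)))).1 = s
      rw [h1]
      simp
    simp only [e1, if_true, Finset.sum_const, card_univ, Fintype.card_fin, nsmul_eq_mul]
    ring

/-- A completable array has a fractional completion. -/
theorem frac_of_completable {n : ℕ} (P : Fin n → Fin n → Option (Fin n)) (h : Completable P) :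
    ∃ x : Fin n → Fin n → Fin n → ℝ, IsFracCompletion P x := by
  classical
  obtain ⟨M, ⟨hM1, hM2⟩, hM3⟩ := h
  refine ⟨fun r c s => if M r c = s then 1 else 0, ?_, ?_, ?_, ?_, ?_⟩
  · intro r c s
    show (0 : ℝ) ≤ if M r c = s then 1 else 0
    split_ifs <;> norm_num
  · intro r c
    simp
  · intro r s
    show ∑ c, (if M r c = s then (1 : ℝ) else 0) = 1
    rw [(hM1 r).sum_comp (fun z => if z = s then (1 : ℝ) else 0)]
    simp
  · intro c s
    show ∑ r, (if M r c = s then (1 : ℝ) else 0) = 1
    rw [(hM2 c).sum_comp (fun z => if z = s then (1 : ℝ) else 0)]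
    simp
  · intro r c s hs
    show (if M r c = s then (1 : ℝ) else 0) = 1
    rw [if_pos (hM3 r c s hs)]

/-- Full arrays. -/
theorem completable_full {n : ℕ} (P : Fin n → Fin n → Option (Fin n)) (h : IsProtoplex n n P) :
    Completable P := by
  classical
  have h1 : ∀ r c, P r c ≠ none := by
    intro r c
    have h2 := h.row r
    have h3 : (univ.filter fun c => P r c ≠ none) = univ := by
      apply Finset.eq_univ_of_card
      rw [h2, Fintype.card_fin]
    have h4 : c ∈ (univ.filter fun c => P r c ≠ none) := by rw [h3]; exact mem_univ c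
    exact (mem_filter.mp h4).2
  choose L hL using fun r c => Option.ne_none_iff_exists'.mp (h1 r c)
  refine ⟨L, ⟨fun r => ?_, fun c => ?_⟩, fun r c s hs => ?_⟩
  · apply Function.Injective.bijective_of_finite
    intro c c' hcc
    exact h.row_inj r c c' (L r c) (hL r c) (by rw [hcc]; exact hL r c')
  · apply Function.Injective.bijective_of_finite
    intro r r' hrr
    have hrr' : L r c = L r' c := hrr
    exact h.col_inj r r' c (L r c) (hL r c) (by rw [hrr']; exact hL r' c)
  · rw [hL r c] at hs
    exact Option.some.inj hs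

/-- `1`-protoplexes of order `3`. -/
theorem completable_one_three (P : Fin 3 → Fin 3 → Option (Fin 3)) (h : IsProtoplex 3 1 P) :
    Completable P := by
  classical
  have hr : ∀ r, ∃ s c, P r c = some s := by
    intro r
    obtain ⟨c, hc⟩ := Finset.card_pos.mp (by rw [h.row r]; norm_num :
      0 < (univ.filter fun c => P r c ≠ none).card)
    obtain ⟨s, hs⟩ := Option.ne_none_iff_exists'.mp (mem_filter.mp hc).2
    exact ⟨s, c, hs⟩
  have hc : ∀ c, ∃ s r, P r c = some s := by
    intro c
    obtain ⟨r, hr⟩ := Finset.card_pos.mp (by rw [h.col c]; norm_num :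
      0 < (univ.filter fun r => P r c ≠ none).card)
    obtain ⟨s, hs⟩ := Option.ne_none_iff_exists'.mp (mem_filter.mp hr).2
    exact ⟨s, r, hs⟩
  choose σ c0 hσ using hr
  choose τ r0 hτ using hc
  have hsym : ∀ (s : Fin 3) (x y : Fin 3 × Fin 3), P x.1 x.2 = some s → P y.1 y.2 = some s →
      x = y := by
    intro s x y hx hy
    have h1 := Finset.card_eq_one.mp (h.symbol s)
    obtain ⟨z, hz⟩ := h1
    have hx' : x ∈ ({z} : Finset _) := by rw [← hz]; exact mem_filter.mpr ⟨mem_univ _, hx⟩
    have hy' : y ∈ ({z} : Finset _) := by rw [← hz]; exact mem_filter.mpr ⟨mem_univ _, hy⟩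
    rw [mem_singleton.mp hx', mem_singleton.mp hy']
  have hrow1 : ∀ r c s, P r c = some s → σ r = s := by
    intro r c s hs
    have h1 := Finset.card_eq_one.mp (h.row r)
    obtain ⟨z, hz⟩ := h1
    have hx' : c ∈ ({z} : Finset _) := by
      rw [← hz]; exact mem_filter.mpr ⟨mem_univ _, by rw [hs]; simp⟩
    have hy' : c0 r ∈ ({z} : Finset _) := by
      rw [← hz]; exact mem_filter.mpr ⟨mem_univ _, by rw [hσ r]; simp⟩
    have h2 := hσ r
    rw [mem_singleton.mp hy', ← mem_singleton.mp hx', hs] at h2
    exact (Option.some.inj h2).symm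
  have hcol1 : ∀ r c s, P r c = some s → τ c = s := by
    intro r c s hs
    have h1 := Finset.card_eq_one.mp (h.col c)
    obtain ⟨z, hz⟩ := h1
    have hx' : r ∈ ({z} : Finset _) := by
      rw [← hz]; exact mem_filter.mpr ⟨mem_univ _, by rw [hs]; simp⟩
    have hy' : r0 c ∈ ({z} : Finset _) := by
      rw [← hz]; exact mem_filter.mpr ⟨mem_univ _, by rw [hτ c]; simp⟩
    have h2 := hτ c
    rw [mem_singleton.mp hy', ← mem_singleton.mp hx', hs] at h2
    exact (Option.some.inj h2).symm
  have hσi : Function.Injective σ := by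
    intro r r' hrr
    have h1 := hsym (σ r) (r, c0 r) (r', c0 r') (hσ r) (by rw [hrr]; exact hσ r')
    exact congrArg Prod.fst h1
  have hτi : Function.Injective τ := by
    intro c c' hcc
    have h1 := hsym (τ c) (r0 c, c) (r0 c', c') (hτ c) (by rw [hcc]; exact hτ c')
    exact congrArg Prod.snd h1
  refine ⟨fun r c => -(σ r + τ c), ⟨fun r => ?_, fun c => ?_⟩, fun r c s hs => ?_⟩
  · apply Function.Injective.bijective_of_finite
    intro c c' hcc
    exact hτi (add_left_cancel (neg_injective hcc))
  · apply Function.Injective.bijective_of_finite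
    intro r r' hrr
    exact hσi (add_right_cancel (neg_injective hrr))
  · show -(σ r + τ c) = s
    rw [hrow1 r c s hs, hcol1 r c s hs]
    have h3 : ∀ s : Fin 3, -(s + s) = s := by decide
    exact h3 s

end Pool.Agent.Helper93.FRD
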