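import Pool.Agent.Helper92.Proto.Defs

/-! Project FRD: circulant protoplexes, block sums. -/

set_option autoImplicit false

namespace Pool.Agent.Helper93.FRD

open Finset
open Pool.Agent.Helper92.Proto (IsProtoplex IsLatin Completable)

section

variable {b : ℕ} [NeZero b]

/-- The circulant array: the cell `(r, r + d)` holds `r + f d` for `d ∈ D`. -/
def circ (D : Finset (Fin b)) (f : Fin b → Fin b) (r c : Fin b) : Option (Fin b) :=
  if c - r ∈ D then some (r + f (c - r)) else none

theorem circ_some (D : Finset (Fin b)) (f : Fin b → Fin b) (r c s : Fin b) :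
    circ D f r c = some s ↔ c - r ∈ D ∧ r + f (c - r) = s := by
  unfold circ
  split_ifs with h <;> simp [h]

theorem circ_ne (D : Finset (Fin b)) (f : Fin b → Fin b) (r c : Fin b) :
    circ D f r c ≠ none ↔ c - r ∈ D := by
  unfold circ
  split_ifs with h <;> simp [h]

theorem circ_proto (D : Finset (Fin b)) (f : Fin b → Fin b)
    (hf : ∀ x ∈ D, ∀ y ∈ D, f x = f y → x = y)
    (hg : ∀ x ∈ D, ∀ y ∈ D, f x - x = f y - y → x = y) :
    IsProtoplex b D.card (circ D f) := by
  constructor
  · intro r c c' s h h'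
    obtain ⟨h1, h2⟩ := (circ_some D f r c s).mp h
    obtain ⟨h3, h4⟩ := (circ_some D f r c' s).mp h'
    have h5 := hf _ h1 _ h3 (add_left_cancel (h2.trans h4.symm))
    exact sub_left_inj.mp h5
  · intro r r' c s h h'
    obtain ⟨h1, h2⟩ := (circ_some D f r c s).mp h
    obtain ⟨h3, h4⟩ := (circ_some D f r' c s).mp h'
    have h5 : f (c - r) - (c - r) = f (c - r') - (c - r') := by
      have e1 : f (c - r) - (c - r) = (r + f (c - r)) - c := by abel
      have e2 : f (c - r') - (c - r') = (r' + f (c - r')) - c := by abel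
      rw [e1, e2, h2, h4]
    have h6 := hg _ h1 _ h3 h5
    exact sub_right_inj.mp h6
  · intro s
    refine Finset.card_bij (fun x _ => x.2 - x.1) ?_ ?_ ?_
    · intro x hx
      exact ((circ_some D f _ _ _).mp (mem_filter.mp hx).2).1
    · intro x hx y hy hxy
      obtain ⟨h1, h2⟩ := (circ_some D f _ _ _).mp (mem_filter.mp hx).2
      obtain ⟨h3, h4⟩ := (circ_some D f _ _ _).mp (mem_filter.mp hy).2
      have hxy' : x.2 - x.1 = y.2 - y.1 := hxy
      rw [hxy'] at h2
      have h5 : x.1 = y.1 := add_right_cancel (h2.trans h4.symm)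
      rw [h5] at hxy'
      exact Prod.ext h5 (sub_left_inj.mp hxy')
    · intro d hd
      refine ⟨(s - f d, s - f d + d), ?_, ?_⟩
      · refine mem_filter.mpr ⟨mem_univ _, (circ_some D f _ _ _).mpr ?_⟩
        have e : s - f d + d - (s - f d) = d := by abel
        show (s - f d + d) - (s - f d) ∈ D ∧ (s - f d) + f ((s - f d + d) - (s - f d)) = s
        rw [e]
        exact ⟨hd, by abel⟩
      · show (s - f d + d) - (s - f d) = d
        abel
  · intro r
    refine Finset.card_bij (fun c _ => c - r) ?_ ?_ ?_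
    · intro c hc
      exact (circ_ne D f r c).mp (mem_filter.mp hc).2
    · intro c _ c' _ h
      exact sub_left_inj.mp h
    · intro d hd
      have e : (r + d) - r = d := by abel
      refine ⟨r + d, mem_filter.mpr ⟨mem_univ _, (circ_ne D f r _).mpr (by rw [e]; exact hd)⟩, e⟩
  · intro c
    refine Finset.card_bij (fun r _ => c - r) ?_ ?_ ?_
    · intro r hr
      exact (circ_ne D f r c).mp (mem_filter.mp hr).2
    · intro r _ r' _ h
      exact sub_right_inj.mp h
    · intro d hd
      have e : c - (c - d) = d := by abel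
      refine ⟨c - d, mem_filter.mpr ⟨mem_univ _, (circ_ne D f _ c).mpr (by rw [e]; exact hd)⟩, e⟩

end

/-- The cyclic latin square. -/
theorem latin_proto (b : ℕ) [NeZero b] :
    IsProtoplex b b (fun r c : Fin b => some (r + c)) := by
  constructor
  · intro r c c' s h h'
    exact add_left_cancel (Option.some.inj (h.trans h'.symm))
  · intro r r' c s h h'
    exact add_right_cancel (Option.some.inj (h.trans h'.symm))
  · intro s
    calc (univ.filter fun x : Fin b × Fin b => some (x.1 + x.2) = some s).card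
        = (univ : Finset (Fin b)).card := by
          refine Finset.card_bij (fun x _ => x.1) (fun _ _ => mem_univ _) ?_ ?_
          · intro x hx y hy hxy
            have h1 := Option.some.inj (mem_filter.mp hx).2
            have h2 := Option.some.inj (mem_filter.mp hy).2
            have h3 : x.1 = y.1 := hxy
            rw [h3] at h1
            exact Prod.ext h3 (add_left_cancel (h1.trans h2.symm))
          · intro r _
            refine ⟨(r, s - r), mem_filter.mpr ⟨mem_univ _, ?_⟩, rfl⟩
            show some (r + (s - r)) = some s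
            congr 1
            abel
      _ = b := by rw [card_univ, Fintype.card_fin]
  · intro r
    simp
  · intro c
    simp

/-- For all `k ≤ b` there is a `k`-protoplex of order `b`. -/
theorem exists_proto (b k : ℕ) (hk : k ≤ b) : ∃ P, IsProtoplex b k P := by
  rcases Nat.eq_zero_or_pos b with h0 | hb
  · subst h0
    exact ⟨fun _ _ => none, ⟨fun r => r.elim0, fun r => r.elim0, fun r => r.elim0, fun r => r.elim0,
      fun r => r.elim0⟩⟩
  have : NeZero b := ⟨by omega⟩
  by_cases hkb : k = b ∧ b % 2 = 0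
  · rw [hkb.1]
    exact ⟨_, latin_proto b⟩
  · let e : Fin b → ℕ := fun d => if b % 2 = 0 ∧ b ≤ 2 * d.val then 1 else 0
    let g : Fin b → Fin b := fun d => ⟨(d.val + e d) % b, Nat.mod_lt _ hb⟩
    let D : Finset (Fin b) := univ.filter fun d => d.val < k
    have hD : D.card = k := by
      have h1 : D.card = (range k).card := by
        refine Finset.card_bij (fun x _ => x.val) ?_ ?_ ?_
        · intro x hx
          exact mem_range.mpr (mem_filter.mp hx).2
        · intro x _ y _ h
          exact Fin.ext h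
        · intro d hd
          have hd' := mem_range.mp hd
          exact ⟨⟨d, by omega⟩, mem_filter.mpr ⟨mem_univ _, hd'⟩, rfl⟩
      rw [h1, card_range]
    have hgv : ∀ x ∈ D, (g x).val = x.val + e x := by
      intro x hx
      have hx' := (mem_filter.mp hx).2
      have h1 := x.isLt
      show (x.val + e x) % b = _
      apply Nat.mod_eq_of_lt
      show x.val + (if b % 2 = 0 ∧ b ≤ 2 * x.val then 1 else 0) < b
      split_ifs with h
      · omega
      · omega
    have hg : ∀ x ∈ D, ∀ y ∈ D, g x = g y → x = y := by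
      intro x hx y hy h
      have h1 := congrArg Fin.val h
      rw [hgv x hx, hgv y hy] at h1
      have h2 : x.val + (if b % 2 = 0 ∧ b ≤ 2 * x.val then 1 else 0) =
        y.val + (if b % 2 = 0 ∧ b ≤ 2 * y.val then 1 else 0) := h1
      apply Fin.ext
      split_ifs at h2 <;> omega
    have hf : ∀ x ∈ D, ∀ y ∈ D, g x + x = g y + y → x = y := by
      intro x hx y hy h
      have hx' := (mem_filter.mp hx).2
      have hy' := (mem_filter.mp hy).2
      have h1 := congrArg Fin.val h
      rw [Fin.val_add, Fin.val_add, hgv x hx, hgv y hy] at h1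
      have hx1 := x.isLt
      have hy1 := y.isLt
      have h2 : (x.val + (if b % 2 = 0 ∧ b ≤ 2 * x.val then 1 else 0) + x.val) % b =
        (y.val + (if b % 2 = 0 ∧ b ≤ 2 * y.val then 1 else 0) + y.val) % b := h1
      apply Fin.ext
      have hm : ∀ z : ℕ, z < 2 * b → z % b = if z < b then z else z - b := by
        intro z hz
        split_ifs with hc
        · exact Nat.mod_eq_of_lt hc
        · rw [Nat.mod_eq_sub_mod (by omega), Nat.mod_eq_of_lt (by omega)]
      rw [hm _ (by split_ifs <;> omega), hm _ (by split_ifs <;> omega)] at h2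
      split_ifs at h2 <;> omega
    refine ⟨circ D (fun d => g d + d), ?_⟩
    have h := circ_proto D (fun d => g d + d) hf (fun x hx y hy h => hg x hx y hy (by
      simpa using h))
    rwa [hD] at h

/-- The direct sum of two arrays. -/
def bsum {a b : ℕ} (P : Fin a → Fin a → Option (Fin a)) (Q : Fin b → Fin b → Option (Fin b))
    (r c : Fin (a + b)) : Option (Fin (a + b)) :=
  Fin.addCases (fun r1 => Fin.addCases (fun c1 => (P r1 c1).map (Fin.castAdd b)) (fun _ => none) c)
    (fun r2 => Fin.addCases (fun _ => none) (fun c2 => (Q r2 c2).map (Fin.natAdd a)) c) r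

section

variable {a b : ℕ} (P : Fin a → Fin a → Option (Fin a)) (Q : Fin b → Fin b → Option (Fin b))

@[simp] theorem bsum_ll (r c : Fin a) :
    bsum P Q (Fin.castAdd b r) (Fin.castAdd b c) = (P r c).map (Fin.castAdd b) := by
  simp [bsum]

@[simp] theorem bsum_lr (r : Fin a) (c : Fin b) :
    bsum P Q (Fin.castAdd b r) (Fin.natAdd a c) = none := by
  simp [bsum]

@[simp] theorem bsum_rl (r : Fin b) (c : Fin a) :
    bsum P Q (Fin.natAdd a r) (Fin.castAdd b c) = none := by
  simp [bsum]

@[simp] theorem bsum_rr (r c : Fin b) :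
    bsum P Q (Fin.natAdd a r) (Fin.natAdd a c) = (Q r c).map (Fin.natAdd a) := by
  simp [bsum]

theorem nat_ne_cast (i : Fin a) (j : Fin b) : Fin.natAdd a j ≠ Fin.castAdd b i := by
  intro h
  have := congrArg Fin.val h
  have hi := i.isLt
  simp at this
  omega

theorem bsum_some_l (r c : Fin (a + b)) (s : Fin a) :
    bsum P Q r c = some (Fin.castAdd b s) ↔
      ∃ r1 c1, r = Fin.castAdd b r1 ∧ c = Fin.castAdd b c1 ∧ P r1 c1 = some s := by
  refine Fin.addCases (fun r1 => ?_) (fun r2 => ?_) r <;>
    refine Fin.addCases (fun c1 => ?_) (fun c2 => ?_) c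
  · rw [bsum_ll, Option.map_eq_some_iff]
    constructor
    · rintro ⟨t, h1, h2⟩
      exact ⟨r1, c1, rfl, rfl, by rw [h1, Fin.castAdd_injective _ _ h2]⟩
    · rintro ⟨r1', c1', h1, h2, h3⟩
      exact ⟨s, by rw [Fin.castAdd_injective _ _ h1, Fin.castAdd_injective _ _ h2, h3], rfl⟩
  · rw [bsum_lr]
    constructor
    · intro h; exact absurd h (by simp)
    · rintro ⟨r1', c1', h1, h2, h3⟩
      exact absurd h2 (nat_ne_cast _ _)
  · rw [bsum_rl]
    constructor
    · intro h; exact absurd h (by simp)
    · rintro ⟨r1', c1', h1, h2, h3⟩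
      exact absurd h1 (nat_ne_cast _ _)
  · rw [bsum_rr, Option.map_eq_some_iff]
    constructor
    · rintro ⟨t, h1, h2⟩
      exact absurd h2 (nat_ne_cast _ _)
    · rintro ⟨r1', c1', h1, h2, h3⟩
      exact absurd h1 (nat_ne_cast _ _)

theorem bsum_some_r (r c : Fin (a + b)) (s : Fin b) :
    bsum P Q r c = some (Fin.natAdd a s) ↔
      ∃ r1 c1, r = Fin.natAdd a r1 ∧ c = Fin.natAdd a c1 ∧ Q r1 c1 = some s := by
  refine Fin.addCases (fun r1 => ?_) (fun r2 => ?_) r <;>
    refine Fin.addCases (fun c1 => ?_) (fun c2 => ?_) c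
  · rw [bsum_ll, Option.map_eq_some_iff]
    constructor
    · rintro ⟨t, h1, h2⟩
      exact absurd h2.symm (nat_ne_cast _ _)
    · rintro ⟨r1', c1', h1, h2, h3⟩
      exact absurd h1.symm (nat_ne_cast _ _)
  · rw [bsum_lr]
    constructor
    · intro h; exact absurd h (by simp)
    · rintro ⟨r1', c1', h1, h2, h3⟩
      exact absurd h1.symm (nat_ne_cast _ _)
  · rw [bsum_rl]
    constructor
    · intro h; exact absurd h (by simp)
    · rintro ⟨r1', c1', h1, h2, h3⟩
      exact absurd h2.symm (nat_ne_cast _ _)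
  · rw [bsum_rr, Option.map_eq_some_iff]
    constructor
    · rintro ⟨t, h1, h2⟩
      exact ⟨r2, c2, rfl, rfl, by rw [h1, Fin.natAdd_injective _ _ h2]⟩
    · rintro ⟨r1', c1', h1, h2, h3⟩
      exact ⟨s, by rw [Fin.natAdd_injective _ _ h1, Fin.natAdd_injective _ _ h2, h3], rfl⟩

theorem bsum_proto {k : ℕ} (hP : IsProtoplex a k P) (hQ : IsProtoplex b k Q) :
    IsProtoplex (a + b) k (bsum P Q) := by
  constructor
  · intro r c c' s
    refine Fin.addCases (fun s1 => ?_) (fun s2 => ?_) s
    · intro h h'
      obtain ⟨r1, c1, e1, e2, e3⟩ := (bsum_some_l P Q _ _ _).mp h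
      obtain ⟨r1', c1', e1', e2', e3'⟩ := (bsum_some_l P Q _ _ _).mp h'
      have : r1 = r1' := Fin.castAdd_injective _ _ (e1.symm.trans e1')
      subst this
      rw [e2, e2', hP.row_inj _ _ _ _ e3 e3']
    · intro h h'
      obtain ⟨r1, c1, e1, e2, e3⟩ := (bsum_some_r P Q _ _ _).mp h
      obtain ⟨r1', c1', e1', e2', e3'⟩ := (bsum_some_r P Q _ _ _).mp h'
      have : r1 = r1' := Fin.natAdd_injective _ _ (e1.symm.trans e1')
      subst this
      rw [e2, e2', hQ.row_inj _ _ _ _ e3 e3']
  · intro r r' c s
    refine Fin.addCases (fun s1 => ?_) (fun s2 => ?_) s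
    · intro h h'
      obtain ⟨r1, c1, e1, e2, e3⟩ := (bsum_some_l P Q _ _ _).mp h
      obtain ⟨r1', c1', e1', e2', e3'⟩ := (bsum_some_l P Q _ _ _).mp h'
      have : c1 = c1' := Fin.castAdd_injective _ _ (e2.symm.trans e2')
      subst this
      rw [e1, e1', hP.col_inj _ _ _ _ e3 e3']
    · intro h h'
      obtain ⟨r1, c1, e1, e2, e3⟩ := (bsum_some_r P Q _ _ _).mp h
      obtain ⟨r1', c1', e1', e2', e3'⟩ := (bsum_some_r P Q _ _ _).mp h'
      have : c1 = c1' := Fin.natAdd_injective _ _ (e2.symm.trans e2')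
      subst this
      rw [e1, e1', hQ.col_inj _ _ _ _ e3 e3']
  · intro s
    refine Fin.addCases (fun s1 => ?_) (fun s2 => ?_) s
    · rw [← hP.symbol s1]
      symm
      refine Finset.card_bij (fun x _ => (Fin.castAdd b x.1, Fin.castAdd b x.2)) ?_ ?_ ?_
      · intro x hx
        refine mem_filter.mpr ⟨mem_univ _, (bsum_some_l P Q _ _ _).mpr ?_⟩
        exact ⟨x.1, x.2, rfl, rfl, (mem_filter.mp hx).2⟩
      · intro x _ y _ h
        exact Prod.ext (Fin.castAdd_injective _ _ (congrArg Prod.fst h))
          (Fin.castAdd_injective _ _ (congrArg Prod.snd h))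
      · intro y hy
        obtain ⟨r1, c1, e1, e2, e3⟩ := (bsum_some_l P Q _ _ _).mp (mem_filter.mp hy).2
        exact ⟨(r1, c1), mem_filter.mpr ⟨mem_univ _, e3⟩, Prod.ext e1.symm e2.symm⟩
    · rw [← hQ.symbol s2]
      symm
      refine Finset.card_bij (fun x _ => (Fin.natAdd a x.1, Fin.natAdd a x.2)) ?_ ?_ ?_
      · intro x hx
        refine mem_filter.mpr ⟨mem_univ _, (bsum_some_r P Q _ _ _).mpr ?_⟩
        exact ⟨x.1, x.2, rfl, rfl, (mem_filter.mp hx).2⟩
      · intro x _ y _ h
        exact Prod.ext (Fin.natAdd_injective _ _ (congrArg Prod.fst h))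
          (Fin.natAdd_injective _ _ (congrArg Prod.snd h))
      · intro y hy
        obtain ⟨r1, c1, e1, e2, e3⟩ := (bsum_some_r P Q _ _ _).mp (mem_filter.mp hy).2
        exact ⟨(r1, c1), mem_filter.mpr ⟨mem_univ _, e3⟩, Prod.ext e1.symm e2.symm⟩
  · intro r
    rw [card_filter, Fin.sum_univ_add]
    refine Fin.addCases (fun r1 => ?_) (fun r2 => ?_) r
    · have h := hP.row r1
      rw [card_filter] at h
      simpa using h
    · have h := hQ.row r2
      rw [card_filter] at h
      simpa using h
  · intro c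
    rw [card_filter, Fin.sum_univ_add]
    refine Fin.addCases (fun c1 => ?_) (fun c2 => ?_) c
    · have h := hP.col c1
      rw [card_filter] at h
      simpa using h
    · have h := hQ.col c2
      rw [card_filter] at h
      simpa using h

end

end Pool.Agent.Helper93.FRD
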