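import Pool.Agent.Helper93.FRD.Circ
import Pool.Agent.Helper93.FZ.St

/-! Project FRD: direct sums without fractional completion. -/

set_option autoImplicit false

namespace Pool.Agent.Helper93.FRD

open Finset Pool.Agent.Helper93.FZ
open Pool.Agent.Helper92.Proto (IsProtoplex IsLatin Completable)

theorem block_ge {a k N : ℕ} (P : Fin a → Fin a → Option (Fin a)) (hP : IsProtoplex a k P)
    (x : Fin N → Fin N → Fin N → ℝ) (e : Fin a → Fin N) (h0 : ∀ r c s, 0 ≤ x r c s)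
    (h1 : ∀ r c s, P r c = some s → x (e r) (e c) (e s) = 1) :
    (a : ℝ) * k ≤ ∑ r, ∑ c, ∑ s, x (e r) (e c) (e s) := by
  have h2 : ∀ r, (k : ℝ) ≤ ∑ c, ∑ s, x (e r) (e c) (e s) := by
    intro r
    have h3 : (k : ℝ) = ∑ c, if P r c ≠ none then (1 : ℝ) else 0 := by
      rw [Finset.sum_boole, hP.row r]
    rw [h3]
    refine Finset.sum_le_sum fun c _ => ?_
    split_ifs with h4
    · obtain ⟨s, hs⟩ := Option.ne_none_iff_exists'.mp h4
      rw [← h1 r c s hs]
      exact Finset.single_le_sum (f := fun s => x (e r) (e c) (e s))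
        (fun s _ => h0 _ _ _) (mem_univ s)
    · exact Finset.sum_nonneg fun s _ => h0 _ _ _
  calc (a : ℝ) * k = ∑ _r : Fin a, (k : ℝ) := by simp
    _ ≤ _ := Finset.sum_le_sum fun r _ => h2 r

theorem no_frac {a b k : ℕ} (P : Fin a → Fin a → Option (Fin a))
    (Q : Fin b → Fin b → Option (Fin b)) (hP : IsProtoplex a k P) (hQ : IsProtoplex b k Q)
    (h : a * a + b * b < k * (a + b) + a * b) (x : Fin (a + b) → Fin (a + b) → Fin (a + b) → ℝ)
    (hx : IsFracCompletion (bsum P Q) x) : False := by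
  have g1 := block_ge P hP x (Fin.castAdd b) hx.nonneg (fun r c s hs =>
    hx.agree _ _ _ ((bsum_some_l P Q _ _ _).mpr ⟨r, c, rfl, rfl, hs⟩))
  have g2 := block_ge Q hQ x (Fin.natAdd a) hx.nonneg (fun r c s hs =>
    hx.agree _ _ _ ((bsum_some_r P Q _ _ _).mpr ⟨r, c, rfl, rfl, hs⟩))
  have e1 : ∑ r : Fin a, ∑ c : Fin a, ∑ s : Fin a, x (Fin.castAdd b r) (Fin.castAdd b c) (Fin.castAdd b s) +
      ∑ r : Fin a, ∑ c : Fin a, ∑ s : Fin b, x (Fin.castAdd b r) (Fin.castAdd b c) (Fin.natAdd a s) =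
      (a : ℝ) * a := by
    rw [← Finset.sum_add_distrib]
    have : ∀ r : Fin a, ∑ c : Fin a, ∑ s : Fin a, x (Fin.castAdd b r) (Fin.castAdd b c) (Fin.castAdd b s) +
        ∑ c : Fin a, ∑ s : Fin b, x (Fin.castAdd b r) (Fin.castAdd b c) (Fin.natAdd a s) = a := by
      intro r
      rw [← Finset.sum_add_distrib]
      have h3 : ∀ c : Fin a, ∑ s : Fin a, x (Fin.castAdd b r) (Fin.castAdd b c) (Fin.castAdd b s) +
          ∑ s : Fin b, x (Fin.castAdd b r) (Fin.castAdd b c) (Fin.natAdd a s) = 1 := by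
        intro c
        rw [← Fin.sum_univ_add (fun s => x (Fin.castAdd b r) (Fin.castAdd b c) s)]
        exact hx.cell _ _
      simp [h3]
    simp [this]
  have e2 : ∑ r : Fin a, ∑ c : Fin a, ∑ s : Fin b, x (Fin.castAdd b r) (Fin.castAdd b c) (Fin.natAdd a s) +
      ∑ r : Fin a, ∑ c : Fin b, ∑ s : Fin b, x (Fin.castAdd b r) (Fin.natAdd a c) (Fin.natAdd a s) =
      (a : ℝ) * b := by
    rw [← Finset.sum_add_distrib]
    have : ∀ r : Fin a, ∑ c : Fin a, ∑ s : Fin b, x (Fin.castAdd b r) (Fin.castAdd b c) (Fin.natAdd a s) +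
        ∑ c : Fin b, ∑ s : Fin b, x (Fin.castAdd b r) (Fin.natAdd a c) (Fin.natAdd a s) = b := by
      intro r
      rw [Finset.sum_comm (f := fun (c : Fin a) (s : Fin b) =>
          x (Fin.castAdd b r) (Fin.castAdd b c) (Fin.natAdd a s)),
        Finset.sum_comm (f := fun (c : Fin b) (s : Fin b) =>
          x (Fin.castAdd b r) (Fin.natAdd a c) (Fin.natAdd a s)), ← Finset.sum_add_distrib]
      have h3 : ∀ s : Fin b, ∑ c : Fin a, x (Fin.castAdd b r) (Fin.castAdd b c) (Fin.natAdd a s) +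
          ∑ c : Fin b, x (Fin.castAdd b r) (Fin.natAdd a c) (Fin.natAdd a s) = 1 := by
        intro s
        rw [← Fin.sum_univ_add (fun c => x (Fin.castAdd b r) c (Fin.natAdd a s))]
        exact hx.row _ _
      simp [h3]
    simp [this]
  have e3 : ∑ r : Fin a, ∑ c : Fin b, ∑ s : Fin b, x (Fin.castAdd b r) (Fin.natAdd a c) (Fin.natAdd a s) +
      ∑ r : Fin b, ∑ c : Fin b, ∑ s : Fin b, x (Fin.natAdd a r) (Fin.natAdd a c) (Fin.natAdd a s) =
      (b : ℝ) * b := by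
    rw [← Fin.sum_univ_add (fun r => ∑ c : Fin b, ∑ s : Fin b, x r (Fin.natAdd a c) (Fin.natAdd a s)),
      Finset.sum_comm]
    have : ∀ c : Fin b, ∑ r, ∑ s : Fin b, x r (Fin.natAdd a c) (Fin.natAdd a s) = b := by
      intro c
      rw [Finset.sum_comm]
      have h3 : ∀ s : Fin b, ∑ r, x r (Fin.natAdd a c) (Fin.natAdd a s) = 1 := fun s => hx.col _ _
      simp [h3]
    simp [this]
  have h' : (a : ℝ) * a + b * b < k * (a + b) + a * b := by exact_mod_cast h
  nlinarith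

/-- The converse: for `2 ≤ k ≤ n/2` and `n < 4k` some `k`-protoplex of order `n` has no fractional
completion. -/
theorem converse (n k : ℕ) (hk : 2 ≤ k) (h2 : 2 * k ≤ n) (h4 : n < 4 * k) :
    ∃ P : Fin n → Fin n → Option (Fin n), IsProtoplex n k P ∧
      ∀ x : Fin n → Fin n → Fin n → ℝ, ¬ IsFracCompletion P x := by
  obtain ⟨a, b, hab, hb, hab'⟩ : ∃ a b : ℕ, a + b = n ∧ b ≤ a ∧ a ≤ b + 1 :=
    ⟨(n + 1) / 2, n / 2, by omega, by omega, by omega⟩
  subst hab
  obtain ⟨P, hP⟩ := exists_proto a k (by omega)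
  obtain ⟨Q, hQ⟩ := exists_proto b k (by omega)
  refine ⟨bsum P Q, bsum_proto P Q hP hQ, fun x hx => no_frac P Q hP hQ ?_ x hx⟩
  rcases Nat.eq_or_lt_of_le hb with h | h
  · subst h
    nlinarith
  · have h5 : a = b + 1 := by omega
    subst h5
    nlinarith

end Pool.Agent.Helper93.FRD
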