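import Pool.Agent.Helper93.FRD.Conv

/-! Project FRD: arrays with a dead cell: `(n-1)`-protoplexes. -/

set_option autoImplicit false

namespace Pool.Agent.Helper93.FRD

open Finset Pool.Agent.Helper93.FZ
open Pool.Agent.Helper92.Proto (IsProtoplex IsLatin Completable)

/-- An empty cell whose row and column together contain all symbols. -/
theorem no_frac_of_dead {n : ℕ} (P : Fin n → Fin n → Option (Fin n)) (r c : Fin n)
    (h0 : P r c = none)
    (h : ∀ s, (∃ c', P r c' = some s) ∨ ∃ r', P r' c = some s)
    (x : Fin n → Fin n → Fin n → ℝ) (hx : IsFracCompletion P x) : False := by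
  have h1 : ∀ s, x r c s = 0 := by
    intro s
    rcases h s with ⟨c', h2⟩ | ⟨r', h2⟩
    · have hne : c ≠ c' := by
        rintro rfl
        rw [h0] at h2
        exact absurd h2 (by simp)
      have h3 := hx.agree r c' s h2
      have h4 : x r c s + x r c' s ≤ ∑ c'', x r c'' s := by
        rw [← Finset.sum_pair (f := fun c'' => x r c'' s) hne]
        exact Finset.sum_le_sum_of_subset_of_nonneg (Finset.subset_univ _)
          (fun _ _ _ => hx.nonneg _ _ _)
      rw [hx.row r s] at h4
      have h5 := hx.nonneg r c s
      linarith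
    · have hne : r ≠ r' := by
        rintro rfl
        rw [h0] at h2
        exact absurd h2 (by simp)
      have h3 := hx.agree r' c s h2
      have h4 : x r c s + x r' c s ≤ ∑ r'', x r'' c s := by
        rw [← Finset.sum_pair (f := fun r'' => x r'' c s) hne]
        exact Finset.sum_le_sum_of_subset_of_nonneg (Finset.subset_univ _)
          (fun _ _ _ => hx.nonneg _ _ _)
      rw [hx.col c s] at h4
      have h5 := hx.nonneg r c s
      linarith
  have h2 := hx.cell r c
  rw [Finset.sum_eq_zero fun s _ => h1 s] at h2
  exact absurd h2 (by norm_num)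

/-! ### `k = n - 1` -/

/-- The cell `(r, c)` holds `c - r` modulo `n + 1` (symbols `1, .., n`, rows and columns `1, .., n`), with the
names shifted by one. -/
def PD {n : ℕ} (r c : Fin n) : Option (Fin n) :=
  if h1 : r.val < c.val then some ⟨c.val - r.val - 1, by omega⟩
  else if h2 : c.val < r.val then some ⟨n + c.val - r.val, by omega⟩ else none

theorem PD_some {n : ℕ} (r c s : Fin n) :
    PD r c = some s ↔ (r.val < c.val ∧ c.val = r.val + s.val + 1) ∨
      (c.val < r.val ∧ c.val + n = r.val + s.val) := by
  have hr := r.isLt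
  have hc := c.isLt
  have hs := s.isLt
  unfold PD
  split_ifs with h1 h2
  · simp only [Option.some.injEq, Fin.ext_iff]
    omega
  · simp only [Option.some.injEq, Fin.ext_iff]
    omega
  · simp
    omega

theorem PD_ne {n : ℕ} (r c : Fin n) : PD r c ≠ none ↔ r ≠ c := by
  have hr := r.isLt
  have hc := c.isLt
  unfold PD
  rw [Ne, Ne, Fin.ext_iff]
  split_ifs with h1 h2
  · simp
    omega
  · simp
    omega
  · simp
    omega

theorem PD_proto (n : ℕ) : IsProtoplex n (n - 1) (PD (n := n)) := by
  constructor
  · intro r c c' s h h'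
    rw [PD_some] at h h'
    have hc := c.isLt
    have hc' := c'.isLt
    have hr := r.isLt
    apply Fin.ext
    omega
  · intro r r' c s h h'
    rw [PD_some] at h h'
    have hc := c.isLt
    have hr' := r'.isLt
    have hr := r.isLt
    apply Fin.ext
    omega
  · intro s
    have hs := s.isLt
    have e : (univ.filter fun x : Fin n × Fin n => PD x.1 x.2 = some s).card =
        (univ.erase (⟨n - 1 - s.val, by omega⟩ : Fin n)).card := by
      refine Finset.card_bij (fun x _ => x.1) ?_ ?_ ?_
      · intro x hx
        have h1 := (PD_some _ _ _).mp (mem_filter.mp hx).2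
        have hx2 := x.2.isLt
        refine mem_erase.mpr ⟨?_, mem_univ _⟩
        intro h2
        have h3 := congrArg Fin.val h2
        simp only at h3
        omega
      · intro x hx y hy hxy
        have h1 := (PD_some _ _ _).mp (mem_filter.mp hx).2
        have h2 := (PD_some _ _ _).mp (mem_filter.mp hy).2
        have hx2 := x.2.isLt
        have hy2 := y.2.isLt
        have hx1 := x.1.isLt
        have h3 : x.1 = y.1 := hxy
        rw [h3] at h1
        refine Prod.ext h3 (Fin.ext ?_)
        omega
      · intro r hr
        have h1 : r.val ≠ n - 1 - s.val := fun h2 => (mem_erase.mp hr).1 (Fin.ext h2)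
        have hr1 := r.isLt
        by_cases h2 : r.val + s.val + 1 < n
        · exact ⟨(r, ⟨r.val + s.val + 1, h2⟩), mem_filter.mpr ⟨mem_univ _, (PD_some _ _ _).mpr
            (Or.inl ⟨by show r.val < r.val + s.val + 1; omega, rfl⟩)⟩, rfl⟩
        · refine ⟨(r, ⟨r.val + s.val - n, by omega⟩), mem_filter.mpr ⟨mem_univ _, (PD_some _ _ _).mpr
            (Or.inr ⟨?_, ?_⟩)⟩, rfl⟩
          · show r.val + s.val - n < r.val
            omega
          · show r.val + s.val - n + n = r.val + s.val
            omega
    rw [e, card_erase_of_mem (mem_univ _), card_univ, Fintype.card_fin]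
  · intro r
    have e : (univ.filter fun c => PD r c ≠ none) = univ.erase r := by
      ext c
      simp only [mem_filter, mem_univ, true_and, mem_erase, and_true, PD_ne]
      exact ne_comm
    rw [e, card_erase_of_mem (mem_univ _), card_univ, Fintype.card_fin]
  · intro c
    have e : (univ.filter fun r => PD r c ≠ none) = univ.erase c := by
      ext r
      simp only [mem_filter, mem_univ, true_and, mem_erase, and_true, PD_ne]
    rw [e, card_erase_of_mem (mem_univ _), card_univ, Fintype.card_fin]

theorem PD_dead (n : ℕ) (hn : 2 ≤ n) (x : Fin n → Fin n → Fin n → ℝ)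
    (hx : IsFracCompletion (PD (n := n)) x) : False := by
  refine no_frac_of_dead PD ⟨0, by omega⟩ ⟨0, by omega⟩ ?_ ?_ x hx
  · by_contra h
    exact (PD_ne _ _).mp h rfl
  · intro s
    have hs := s.isLt
    by_cases h : s.val + 1 < n
    · exact Or.inl ⟨⟨s.val + 1, h⟩, (PD_some _ _ _).mpr (Or.inl ⟨by show 0 < s.val + 1; omega, by
        show s.val + 1 = 0 + s.val + 1; omega⟩)⟩
    · refine Or.inr ⟨⟨n - s.val, by omega⟩, (PD_some _ _ _).mpr (Or.inr ⟨?_, ?_⟩)⟩
      · show 0 < n - s.val
        omega
      · show 0 + n = n - s.val + s.val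
        omega

end Pool.Agent.Helper93.FRD
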