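import Pool.Agent.Helper93.FRD.Frx
import Pool.Agent.Helper93.IA.Pro

/-! Project FRD: fractional completions of protoplexes. -/

set_option autoImplicit false

namespace Pool.Agent.Helper93.FRD

open Finset Pool.Agent.Helper93.IA Pool.Agent.Helper49.TP Pool.Agent.Helper93.FZ
open Pool.Agent.Helper92.Proto (IsProtoplex IsLatin Completable)

theorem tri_avail {n : ℕ} (P : Fin n → Fin n → Option (Fin n)) (r c s : Fin n) :
    Tri (pA P) (pB P) (pC P) r c s ↔ Avail P r c s := by
  unfold Tri pA pB pC Avail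
  simp only [mem_filter, mem_univ, true_and]
  tauto

/-- A fractional completion from weights on the available triples. -/
theorem completion {n k : ℕ} (P : Fin n → Fin n → Option (Fin n)) (h : IsProtoplex n k P)
    (x : Fin n → Fin n → Fin n → ℝ) (h0 : ∀ r c s, 0 ≤ x r c s)
    (hN : ∀ r c s, ¬ Tri (pA P) (pB P) (pC P) r c s → x r c s = 0)
    (hA : ∀ a b, (a, b) ∈ pA P → ∑ c, x a b c = 1) (hB : ∀ b c, (b, c) ∈ pB P → ∑ a, x a b c = 1)
    (hC : ∀ c a, (c, a) ∈ pC P → ∑ b, x a b c = 1) :
    IsFracCompletion P (fun r c s => x r c s + if P r c = some s then 1 else 0) := by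
  classical
  have hN' : ∀ r c s, ¬ Avail P r c s → x r c s = 0 := fun r c s hh =>
    hN r c s (fun h2 => hh ((tri_avail P r c s).mp h2))
  refine ⟨?_, ?_, ?_, ?_, ?_⟩
  · intro r c s
    have := h0 r c s
    split_ifs <;> linarith
  · intro r c
    rw [Finset.sum_add_distrib]
    by_cases hrc : P r c = none
    · rw [hA r c (by simp [pA, hrc])]
      simp [hrc]
    · obtain ⟨s0, hs0⟩ := Option.ne_none_iff_exists'.mp hrc
      rw [Finset.sum_eq_zero fun s _ => hN' r c s fun hh => hrc hh.1]
      simp [hs0]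
  · intro r s
    rw [Finset.sum_add_distrib]
    by_cases hrs : ∀ c, P r c ≠ some s
    · rw [hC s r (by simp only [pC, mem_filter, mem_univ, true_and]; exact hrs)]
      simp [hrs]
    · push Not at hrs
      obtain ⟨c0, hc0⟩ := hrs
      rw [Finset.sum_eq_zero fun c _ => hN' r c s fun hh => hh.2.1 c0 hc0]
      rw [Finset.sum_eq_single c0]
      · simp [hc0]
      · intro c _ hc
        rw [if_neg]
        exact fun hh => hc (h.row_inj r c c0 s hh hc0)
      · intro hh; exact absurd (mem_univ _) hh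
  · intro c s
    rw [Finset.sum_add_distrib]
    by_cases hrs : ∀ r, P r c ≠ some s
    · rw [hB c s (by simp only [pB, mem_filter, mem_univ, true_and]; exact hrs)]
      simp [hrs]
    · push Not at hrs
      obtain ⟨r0, hr0⟩ := hrs
      rw [Finset.sum_eq_zero fun r _ => hN' r c s fun hh => hh.2.2 r0 hr0]
      rw [Finset.sum_eq_single r0]
      · simp [hr0]
      · intro r _ hr
        rw [if_neg]
        exact fun hh => hr (h.col_inj r r0 c s hh hr0)
      · intro hh; exact absurd (mem_univ _) hh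
  · intro r c s hs
    rw [hN' r c s fun hh => by rw [hh.1] at hs; exact absurd hs (by simp)]
    simp [hs]

/-- Every `k`-protoplex of order `n ≥ 4k` has a fractional completion; if `n > 4k` it can be taken positive
(at least `1/(3n^2)`) on every available triple. -/
theorem frac4 (hF : FRX) (n k : ℕ) (P : Fin n → Fin n → Option (Fin n)) (h : IsProtoplex n k P)
    (hk : 4 * k ≤ n) :
    ∃ x : Fin n → Fin n → Fin n → ℝ, IsFracCompletion P x ∧
      (4 * k < n → ∀ r c s, Avail P r c s → 1 / (3 * (n : ℝ) ^ 2) ≤ x r c s) ∧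
      ∀ r c s, ¬ Avail P r c s → P r c ≠ some s → x r c s = 0 := by
  classical
  rcases Nat.eq_zero_or_pos n with h0 | hn
  · subst h0
    exact ⟨fun _ _ _ => 0, ⟨fun r => r.elim0, fun r => r.elim0, fun r => r.elim0, fun r => r.elim0,
      fun r => r.elim0⟩, fun _ r => r.elim0, fun r => r.elim0⟩
  have hnr : (0 : ℝ) < n := by exact_mod_cast hn
  have hn1 : (1 : ℝ) ≤ n := by exact_mod_cast hn
  have hkr : 4 * (k : ℝ) ≤ n := by exact_mod_cast hk
  have hk0 : (0 : ℝ) ≤ k := Nat.cast_nonneg k
  obtain ⟨η, hη0, hη1, hη2, hη3⟩ : ∃ η : ℝ, 0 ≤ η ∧ η ≤ 1 ∧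
      (n : ℝ) - k ≤ 3 / 2 * (1 - η) * (n - 2 * k) ∧ (4 * k < n → η = 1 / (3 * n)) := by
    by_cases h4 : 4 * k < n
    · refine ⟨1 / (3 * n), by positivity, ?_, ?_, fun _ => rfl⟩
      · rw [div_le_one (by positivity)]
        linarith
      · have h5 : 4 * (k : ℝ) + 1 ≤ n := by exact_mod_cast h4
        have h6 : 1 / (3 * (n : ℝ)) * (n - 2 * k) ≤ 1 / 3 := by
          rw [div_mul_eq_mul_div, one_mul, div_le_div_iff₀ (by positivity) (by norm_num)]
          linarith
        nlinarith
    · exact ⟨0, le_refl 0, by norm_num, by linarith, fun h5 => absurd h5 h4⟩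
  obtain ⟨x, x1, x2, x3, x4, x5, x6⟩ := hF n k (pA P) (pB P) (pC P) 2 η 0 hn (degs P h) hη0 hη1
    (by norm_num) (by norm_num) (by push_cast; linarith)
  refine ⟨_, completion P h x (fun r c s => (x1 r c s).1) x3 x4 x5 x6, ?_, ?_⟩
  · intro h4 r c s hav
    have h5 := x2 r c s ((tri_avail P r c s).mpr hav)
    rw [hη3 h4] at h5
    have h6 : 1 / (3 * (n : ℝ)) / n = 1 / (3 * (n : ℝ) ^ 2) := by
      field_simp
    rw [h6] at h5
    have h7 : (0 : ℝ) ≤ if P r c = some s then 1 else 0 := by split_ifs <;> norm_num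
    show _ ≤ x r c s + if P r c = some s then 1 else 0
    linarith
  · intro r c s hav hs
    have h5 := x3 r c s (fun hh => hav ((tri_avail P r c s).mp hh))
    show x r c s + (if P r c = some s then 1 else 0) = 0
    rw [h5, if_neg hs, add_zero]

end Pool.Agent.Helper93.FRD
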