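import Pool.Agent.Helper93.FRD.St

/-! Project FRD: regular graphs, from the core theorem. -/

set_option autoImplicit false

namespace Pool.Agent.Helper93.FRD

open Finset Pool.Agent.Helper93.IA Pool.Agent.Helper49.TP

section

variable {n : ℕ}

theorem deg1 {k : ℕ} (A : Finset (Fin n × Fin n)) (a : Fin n) (h : m1 A univ a = k) :
    ∑ b, (if (a, b) ∈ A then (1 : ℝ) else 0) = n - k := by
  rw [Finset.sum_boole]
  have h1 := Finset.card_filter_add_card_filter_not (s := (univ : Finset (Fin n)))
    (fun b => (a, b) ∈ A)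
  unfold m1 at h
  rw [h, card_univ, Fintype.card_fin] at h1
  have h2 : ((univ.filter fun b => (a, b) ∈ A).card : ℝ) + k = n := by exact_mod_cast h1
  linarith

theorem deg2 {k : ℕ} (A : Finset (Fin n × Fin n)) (b : Fin n) (h : m2 A univ b = k) :
    ∑ a, (if (a, b) ∈ A then (1 : ℝ) else 0) = n - k := by
  rw [Finset.sum_boole]
  have h1 := Finset.card_filter_add_card_filter_not (s := (univ : Finset (Fin n)))
    (fun a => (a, b) ∈ A)
  unfold m2 at h
  rw [h, card_univ, Fintype.card_fin] at h1
  have h2 : ((univ.filter fun a => (a, b) ∈ A).card : ℝ) + k = n := by exact_mod_cast h1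
  linarith

/-- Common neighbours. -/
theorem codeg {k : ℕ} (A B : Finset (Fin n × Fin n)) (a b : Fin n) (h1 : m1 A univ a = k)
    (h2 : m2 B univ b = k) :
    (n : ℝ) - 2 * k ≤ ((univ.filter fun c => (a, c) ∈ A ∧ (c, b) ∈ B).card : ℝ) := by
  have h3 : (univ : Finset (Fin n)).card ≤ (univ.filter fun c => (a, c) ∈ A ∧ (c, b) ∈ B).card +
      ((univ.filter fun c => (a, c) ∉ A).card + (univ.filter fun c => (c, b) ∉ B).card) := by
    refine le_trans (card_le_card ?_) ((card_union_le _ _).trans
      (Nat.add_le_add_left (card_union_le _ _) _))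
    intro c _
    simp only [mem_union, mem_filter, mem_univ, true_and]
    tauto
  unfold m1 at h1
  unfold m2 at h2
  rw [h1, h2, card_univ, Fintype.card_fin] at h3
  have h4 : (n : ℝ) ≤ ((univ.filter fun c => (a, c) ∈ A ∧ (c, b) ∈ B).card : ℝ) + (k + k) := by
    exact_mod_cast h3
  linarith

/-- The indicator of the triangles. -/
noncomputable def dd (A B C : Finset (Fin n × Fin n)) (a b c : Fin n) : ℝ :=
  if (a, b) ∈ A ∧ (b, c) ∈ B ∧ (c, a) ∈ C then 1 else 0

theorem dd_nonneg (A B C : Finset (Fin n × Fin n)) (a b c : Fin n) : 0 ≤ dd A B C a b c := by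
  unfold dd; split_ifs <;> norm_num

theorem dd_le (A B C : Finset (Fin n × Fin n)) (a b c : Fin n) : dd A B C a b c ≤ 1 := by
  unfold dd; split_ifs <;> norm_num

theorem sum_le_n (f : Fin n → ℝ) (h : ∀ i, f i ≤ 1) : ∑ i, f i ≤ n := by
  calc ∑ i, f i ≤ ∑ _i : Fin n, (1 : ℝ) := Finset.sum_le_sum fun i _ => h i
    _ = n := by simp

end

theorem hFRX (hF : FRD) : FRX := by
  intro n k A B C M η j hn hreg hη hη1 hM hj hD
  have hnr : (0 : ℝ) < n := by exact_mod_cast hn
  have hq : 0 ≤ η / n := by positivity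
  set wA : Fin n → Fin n → ℝ := fun a b =>
    (if (a, b) ∈ A then (1 : ℝ) else 0) - η / n * ∑ c, dd A B C a b c with hwA
  set wB : Fin n → Fin n → ℝ := fun b c =>
    (if (b, c) ∈ B then (1 : ℝ) else 0) - η / n * ∑ a, dd A B C a b c with hwB
  set wC : Fin n → Fin n → ℝ := fun c a =>
    (if (c, a) ∈ C then (1 : ℝ) else 0) - η / n * ∑ b, dd A B C a b c with hwC
  have key : ∀ f : Fin n → ℝ, (∀ i, 0 ≤ f i) → (∀ i, f i ≤ 1) →
      1 - η ≤ 1 - η / n * ∑ i, f i ∧ 1 - η / n * ∑ i, f i ≤ 1 := by
    intro f h0 h1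
    have s0 : 0 ≤ ∑ i, f i := Finset.sum_nonneg fun i _ => h0 i
    have s1 := sum_le_n f h1
    constructor
    · have : η / n * ∑ i, f i ≤ η / n * n := mul_le_mul_of_nonneg_left s1 hq
      have h2 : η / n * n = η := by field_simp
      linarith
    · have := mul_nonneg hq s0
      linarith
  have dA : Dem η A wA := by
    refine ⟨fun a b hab => ?_, fun a b hab => ?_⟩
    · simp only [hwA, if_pos hab]
      exact key _ (fun c => dd_nonneg A B C a b c) (fun c => dd_le A B C a b c)
    · have : ∀ c, dd A B C a b c = 0 := fun c => by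
        unfold dd; rw [if_neg]; tauto
      simp [hwA, hab, this]
  have dB : Dem η B wB := by
    refine ⟨fun b c hab => ?_, fun b c hab => ?_⟩
    · simp only [hwB, if_pos hab]
      exact key _ (fun a => dd_nonneg A B C a b c) (fun a => dd_le A B C a b c)
    · have : ∀ a, dd A B C a b c = 0 := fun a => by
        unfold dd; rw [if_neg]; tauto
      simp [hwB, hab, this]
  have dC : Dem η C wC := by
    refine ⟨fun c a hab => ?_, fun c a hab => ?_⟩
    · simp only [hwC, if_pos hab]
      exact key _ (fun b => dd_nonneg A B C a b c) (fun b => dd_le A B C a b c)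
    · have : ∀ b, dd A B C a b c = 0 := fun b => by
        unfold dd; rw [if_neg]; tauto
      simp [hwC, hab, this]
  have sA1 : ∀ a, ∑ b, wA a b = n - k - η / n * ∑ b, ∑ c, dd A B C a b c := fun a => by
    simp only [hwA]
    rw [Finset.sum_sub_distrib, deg1 A a (hreg a).1, Finset.mul_sum]
  have sA2 : ∀ b, ∑ a, wA a b = n - k - η / n * ∑ a, ∑ c, dd A B C a b c := fun b => by
    simp only [hwA]
    rw [Finset.sum_sub_distrib, deg2 A b (hreg b).2.1, Finset.mul_sum]
  have sB1 : ∀ b, ∑ c, wB b c = n - k - η / n * ∑ c, ∑ a, dd A B C a b c := fun b => by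
    simp only [hwB]
    rw [Finset.sum_sub_distrib, deg1 B b (hreg b).2.2.1, Finset.mul_sum]
  have sB2 : ∀ c, ∑ b, wB b c = n - k - η / n * ∑ b, ∑ a, dd A B C a b c := fun c => by
    simp only [hwB]
    rw [Finset.sum_sub_distrib, deg2 B c (hreg c).2.2.2.1, Finset.mul_sum]
  have sC1 : ∀ c, ∑ a, wC c a = n - k - η / n * ∑ a, ∑ b, dd A B C a b c := fun c => by
    simp only [hwC]
    rw [Finset.sum_sub_distrib, deg1 C c (hreg c).2.2.2.2.1, Finset.mul_sum]
  have sC2 : ∀ a, ∑ c, wC c a = n - k - η / n * ∑ c, ∑ b, dd A B C a b c := fun a => by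
    simp only [hwC]
    rw [Finset.sum_sub_distrib, deg2 C a (hreg a).2.2.2.2.2, Finset.mul_sum]
  have nn : ∀ f : Fin n → Fin n → ℝ, (∀ i i', 0 ≤ f i i') → (0 : ℝ) ≤ η / n * ∑ i, ∑ i', f i i' :=
    fun f h => mul_nonneg hq (Finset.sum_nonneg fun i _ => Finset.sum_nonneg fun i' _ => h i i')
  obtain ⟨y, y1, y2, y3, y4, y5⟩ := hF n A B C wA wB wC M η ((n : ℝ) - k) (n - 2 * k) j hη hη1 hM hj
    dA dB dC
    (fun a => by rw [sA1, sC2, Finset.sum_comm])
    (fun b => by rw [sA2, sB1, Finset.sum_comm])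
    (fun c => by rw [sB2, sC1, Finset.sum_comm])
    (fun a => by
      rw [sA1]
      have := nn (fun b c => dd A B C a b c) (fun b c => dd_nonneg A B C a b c)
      linarith)
    (fun b => by
      rw [sB1]
      have := nn (fun c a => dd A B C a b c) (fun c a => dd_nonneg A B C a b c)
      linarith)
    (fun c => by
      rw [sC1]
      have := nn (fun a b => dd A B C a b c) (fun a b => dd_nonneg A B C a b c)
      linarith)
    (fun a b _ => codeg B C b a (hreg b).2.2.1 (hreg a).2.2.2.2.2)
    (fun b c _ => codeg C A c b (hreg c).2.2.2.2.1 (hreg b).2.1)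
    (fun c a _ => codeg A B a c (hreg a).1 (hreg c).2.2.2.1)
    hD
  have hdT : ∀ a b c, Tri A B C a b c → dd A B C a b c = 1 := fun a b c h => by
    unfold dd; exact if_pos h
  have hdN : ∀ a b c, ¬ Tri A B C a b c → dd A B C a b c = 0 := fun a b c h => by
    unfold dd; exact if_neg h
  refine ⟨fun a b c => y a b c + η / n * dd A B C a b c, ?_, ?_, ?_, ?_, ?_, ?_⟩
  · intro a b c
    have h0 := dd_nonneg A B C a b c
    have h1 := dd_le A B C a b c
    have h2 := mul_nonneg hq h0
    have h3 : η / n * dd A B C a b c ≤ η / n * 1 := mul_le_mul_of_nonneg_left h1 hq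
    have h4 := y1 a b c
    constructor <;> linarith
  · intro a b c h
    have h4 := y1 a b c
    simp only [hdT a b c h]
    linarith
  · intro a b c h
    simp only [hdN a b c h, y2 a b c h]
    ring
  · intro a b h
    rw [Finset.sum_add_distrib, y3, ← Finset.mul_sum]
    simp only [hwA, if_pos h]
    ring
  · intro b c h
    rw [Finset.sum_add_distrib, y4, ← Finset.mul_sum]
    simp only [hwB, if_pos h]
    ring
  · intro c a h
    rw [Finset.sum_add_distrib, y5, ← Finset.mul_sum]
    simp only [hwC, if_pos h]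
    ring

end Pool.Agent.Helper93.FRD
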