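import Pool.Agent.Helper84.FZ.M_RAT
import Pool.Agent.Helper87.FZ.M_INT
import Pool.Agent.Helper95.FZ.M_KNM
import Pool.Agent.Helper6.FZ.M_SPL
import Pool.Agent.Helper80.FZ.M_REP
import Pool.Agent.Helper75.FZ.M_INF

/-! Project FRD: inflations of an array with a fractional completion. -/

set_option autoImplicit false

namespace Pool.Agent.Helper93.FRD

open Finset Pool.Agent.Helper93.FZ
open Pool.Agent.Helper92.Proto (IsProtoplex IsLatin Completable)

theorem inflation_of_frac {n k : ℕ} (P : Fin n → Fin n → Option (Fin n))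
    (x : Fin n → Fin n → Fin n → ℝ) (hx : IsFracCompletion P x) (h : IsProtoplex n k P) :
    ∃ D : ℕ, 1 ≤ D ∧ ∀ m : ℕ, 1 ≤ m → ∀ L : Fin (m * D) → Fin (m * D) → Fin (m * D),
      IsLatin L → IsProtoplex (n * (m * D)) (k * (m * D)) (inflate P L) ∧
        Completable (inflate P L) := by
  obtain ⟨D, hD, hX⟩ := Pool.Agent.Helper87.FZ.hINT Pool.Agent.Helper84.FZ.hRAT n P x hx
  refine ⟨D, hD, fun m hm L hL => ⟨Pool.Agent.Helper75.FZ.hINF n k (m * D) P L h hL, ?_⟩⟩
  obtain ⟨X, h1, h2, h3, h4⟩ := hX m hm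
  obtain ⟨M, hM1, hM2, hM3⟩ := Pool.Agent.Helper6.FZ.hSPL Pool.Agent.Helper95.FZ.hKNM n (m * D) X
    (Nat.mul_pos hm hD) h1 h2 h3
  have h5 : ∀ a b s, P a.1 b.1 = some s → (M a b).1 = s := by
    intro a b s hs
    by_contra hne
    have h6 := hM3 a b
    have h7 := h4 a.1 b.1 s hs
    have h8 := h1 a.1 b.1
    have h9 : X a.1 b.1 s + X a.1 b.1 (M a b).1 ≤ ∑ s', X a.1 b.1 s' := by
      rw [← Finset.sum_pair (fun hh => hne hh.symm)]
      exact Finset.sum_le_sum_of_subset (Finset.subset_univ _)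
    omega
  obtain ⟨N, hN1, hN2, hN3⟩ := Pool.Agent.Helper80.FZ.hREP n (m * D) P M L hM1 hM2 hL h5
  refine ⟨fun x y => finProdFinEquiv (N (finProdFinEquiv.symm x) (finProdFinEquiv.symm y)), ⟨?_, ?_⟩, ?_⟩
  · intro r
    exact finProdFinEquiv.bijective.comp ((hN1 _).comp finProdFinEquiv.symm.bijective)
  · intro c
    exact finProdFinEquiv.bijective.comp ((hN2 _).comp finProdFinEquiv.symm.bijective)
  · intro r c s hs
    unfold inflate at hs
    rw [Option.map_eq_some_iff] at hs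
    obtain ⟨s0, hs0, hs1⟩ := hs
    have h10 := hN3 (finProdFinEquiv.symm r).1 (finProdFinEquiv.symm r).2
      (finProdFinEquiv.symm c).1 (finProdFinEquiv.symm c).2 s0 hs0
    simp only [Prod.mk.eta] at h10
    rw [← hs1]
    exact congrArg _ h10

end Pool.Agent.Helper93.FRD
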