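import Pool.Agent.Helper93.FRD.Avg
import Pool.Agent.Helper93.FRD.Inf
import Pool.Agent.Helper93.FRD.Dead
import Pool.Agent.Helper19.FR4.FRD
import Pool.Agent.Helper23.FR.Dead

/-! Project FRD: the fractional version of the question, for all pairs `(k, n)`. -/

set_option autoImplicit false

namespace Pool.Agent.Helper93.FRD

open Finset Pool.Agent.Helper93.FZ
open Pool.Agent.Helper92.Proto (IsProtoplex IsLatin Completable)

/-- The pairs with `1 ≤ k < n < 4k`, except `(1, 3)`. -/
def Bad (n k : ℕ) : Prop := k < n ∧ n < 4 * k ∧ ¬ (k = 1 ∧ n = 3)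

theorem hFX : FRX := hFRX Pool.Agent.Helper19.FR4.hFRD

theorem frac_good (n k : ℕ) (hk : 1 ≤ k) (hkn : k ≤ n) (hb : ¬ Bad n k)
    (P : Fin n → Fin n → Option (Fin n)) (h : IsProtoplex n k P) :
    ∃ x : Fin n → Fin n → Fin n → ℝ, IsFracCompletion P x := by
  by_cases h4 : 4 * k ≤ n
  · obtain ⟨x, hx, -, -⟩ := frac4 hFX n k P h h4
    exact ⟨x, hx⟩
  · by_cases h5 : k = n
    · subst h5
      exact frac_of_completable P (completable_full P h)
    · by_cases h6 : k = 1 ∧ n = 3
      · obtain ⟨h7, h8⟩ := h6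
        subst h7
        subst h8
        exact frac_of_completable P (completable_one_three P h)
      · exact absurd ⟨by omega, by omega, h6⟩ hb

theorem frac_bad (n k : ℕ) (hk : 1 ≤ k) (hb : Bad n k) :
    ∃ P : Fin n → Fin n → Option (Fin n), IsProtoplex n k P ∧
      ∀ x : Fin n → Fin n → Fin n → ℝ, ¬ IsFracCompletion P x := by
  obtain ⟨h1, h2, h3⟩ := hb
  by_cases h4 : 2 * (n - k) ≤ n
  · obtain ⟨P, hP, r, c, hrc, hs⟩ := Pool.Agent.H23Dead.exists_dead n (n - k) (by omega) h4
    have h5 : n - (n - k) = k := by omega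
    rw [h5] at hP
    exact ⟨P, hP, fun x hx => no_frac_of_dead P r c hrc hs x hx⟩
  · exact converse n k (by omega) (by omega) h2

end Pool.Agent.Helper93.FRD
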